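import Pool.Agent.W522.V.V5

/-!
# MP_80bee4_ag: products of curves and varieties dominated by them

Part 1: for topological groups `H₁, H₂` over `Z` with sections of the degree maps, each continuous
irreducible representation of `H₁ ×_Z H₂` is a subquotient of `p₁^* C₁ ⊗ p₂^* C₂` with continuous
irreducible `C₁, C₂`.  Part 2: if the question has a positive answer (up to a twist by a character
of `Z`) for the members of a class `curve`, it has one for all products; with weights, the
representations with determinant of finite order are themselves of geometric origin.  Part 3: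
the same for the varieties dominated by such products.
-/

namespace Pool.Agent.Results.MP_80bee4_ag.ProductsOfCurves

open W522.V

theorem result {k Z : Type} [Field k] [TopologicalSpace k] [IsTopologicalDivisionRing k]
    [Group Z] [TopologicalSpace Z] (φ : Z) :
    (∀ X₁ X₂ : Space k Z φ, ExteriorAt k (pr₁ X₁.d X₂.d) (pr₂ X₁.d X₂.d)) ∧
    (∀ curve : Space k Z φ → Prop, (∀ X, curve X → GoodUpToTwist X) →
      ∀ X' : Space k Z φ, Prods curve X' →
      GoodUpToTwist X' ∧
      ∀ Wl : Subgroup kˣ, RootClosed Wl → WeightsOn Wl X' →
        FiniteDet X' ∧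
        ∀ (X : Space k Z φ) (p : X'.H →* X.H), Dominates X' X p → PureAlong Wl X' X p) := by
  refine ⟨?_, ?_⟩
  · intro X₁ X₂ V _ _ _ ρ hρ hc
    exact exterior X₁.d X₂.d X₁.σ X₂.σ X₁.dσ X₂.dσ X₁.cd X₂.cd X₁.cσ X₂.cσ ρ hρ hc
  · intro curve hcurve X' hX'
    refine ⟨good_prods hcurve X' hX', ?_⟩
    intro Wl hroot hW
    have hgood := good_prods hcurve X' hX'
    exact ⟨finiteDet Wl hroot X' hgood hW,
      fun X p hdom => pureAlong Wl hroot X' X p hdom hgood hW⟩

end Pool.Agent.Results.MP_80bee4_ag.ProductsOfCurves
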